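import Mathlib
import Pool.Agent.Helper517.LMLongG
import Pool.Agent.Helper517.LMCyc

set_option autoImplicit false

open Pool.Agent.Helper517.LM

namespace Pool.Agent.Results.MP_0933f2_co.BoundedCyclomatic

/-- The Lundow-Markström conjecture holds for every 2-connected graph with `n` vertices and at most
`n + c` edges as soon as `n ≥ 2 ^ (8 c + 8)`: for each fixed cyclomatic number it holds for all but
finitely many 2-connected graphs. -/
theorem result :
  ∀ (c : ℕ) (V : Type) [Fintype V] [DecidableEq V] (G : SimpleGraph V) [DecidableRel G.Adj],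
    (3 ≤ Fintype.card V ∧ G.Connected ∧ ∀ v : V, (G.induce {w : V | w ≠ v}).Connected) →
    G.edgeFinset.card ≤ Fintype.card V + c →
    2 ^ (8 * c + 8) ≤ Fintype.card V →
    ∀ ε : Finset (Sym2 V) → ℝ,
      (∀ E : Finset (Sym2 V), ε E =
        (∑ A ∈ E.powerset,
            ((Fintype.card V : ℝ) -
              (Nat.card (SimpleGraph.fromEdgeSet (A : Set (Sym2 V))).ConnectedComponent : ℝ)) *
            (-1 : ℝ) ^ (A.card + Fintype.card V +
              Nat.card (SimpleGraph.fromEdgeSet (A : Set (Sym2 V))).ConnectedComponent)) /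
        (∑ A ∈ E.powerset,
            (-1 : ℝ) ^ (A.card + Fintype.card V +
              Nat.card (SimpleGraph.fromEdgeSet (A : Set (Sym2 V))).ConnectedComponent))) →
      ∃ e ∈ G.edgeFinset, ε (G.edgeFinset.erase e) < ε G.edgeFinset := by
  intro c V _ _ G _ h2c hE hn ε hε
  obtain ⟨h3, hG, hcut⟩ := h2c
  have hdeg := two_deg G h3 hG hcut
  have hb := cyc_bound c (Fintype.card V) hn
  have hlog : 8 ≤ Nat.log 2 (Fintype.card V) := by
    refine Nat.le_log_of_pow_le (by norm_num) (le_trans ?_ hn)
    exact Nat.pow_le_pow_right (by norm_num) (by omega)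
  obtain ⟨x, hx, hM⟩ := count_cyc G hG c (Nat.log 2 (Fintype.card V) + 1) hdeg
    G.edgeFinset (fun e => SimpleGraph.mem_edgeFinset) hE hb
  obtain ⟨m, p, hm, hinj, hadj⟩ := long_path G _ (by
    intro y hy
    exact nbr_two G y (Finset.mem_filter.1 hy).2) x hx
  have hmM : Nat.log 2 (Fintype.card V) + 1 ≤ m := by omega
  have hlt : Fintype.card V < 2 ^ m :=
    lt_of_lt_of_le (Nat.lt_pow_succ_log_self (by norm_num) _)
      (Nat.pow_le_pow_right (by norm_num) hmM)
  have hres := long_ear V G hG m p (by omega) hinj (fun i hi => (hadj i hi).1)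
    (by
      intro i hi him w hw
      have hd := (Finset.mem_filter.1 (hadj i him).2).2
      have h4 := (hadj (i - 1) (by omega)).1
      have h5 : i - 1 + 1 = i := by omega
      rw [h5] at h4
      refine nbr_two G (p i) hd _ _ w h4.symm (hadj i him).1 ?_ hw
      intro hh
      have := hinj _ _ (by omega) (by omega) hh
      omega)
    (by omega) ε hε
  exact ⟨_, hres.1, hres.2⟩

end Pool.Agent.Results.MP_0933f2_co.BoundedCyclomatic
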