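import Mathlib
import Pool.Agent.Helper517.LMGraph

set_option autoImplicit false

open Pool.Agent.Helper517.LM

namespace Pool.Agent.Results.MP_0933f2_co.LongEar

/-- Let `G` be a connected finite graph on fewer than `2 ^ m + m - 1` vertices that contains an ear
of length `m ≥ 2`: a path `p 0, ..., p m` whose inner vertices have degree two in `G`.  Then `G` has
an edge (the last edge of the ear) whose deletion strictly lowers the mean size of a
broken-cycle-free spanning subgraph, computed from Whitney's subset expansion. -/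
theorem result :
  ∀ (V : Type) [Fintype V] [DecidableEq V] (G : SimpleGraph V) [DecidableRel G.Adj],
    G.Connected →
    ∀ (m : ℕ) (p : ℕ → V), 2 ≤ m →
      (∀ i j, i ≤ m → j ≤ m → p i = p j → i = j) →
      (∀ i, i < m → G.Adj (p i) (p (i + 1))) →
      (∀ i, 0 < i → i < m → G.degree (p i) = 2) →
      Fintype.card V < 2 ^ m + m - 1 →
    ∀ ε : Finset (Sym2 V) → ℝ,
      (∀ E : Finset (Sym2 V), ε E =
        (∑ A ∈ E.powerset,
            ((Fintype.card V : ℝ) -
              (Nat.card (SimpleGraph.fromEdgeSet (A : Set (Sym2 V))).ConnectedComponent : ℝ)) *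
            (-1 : ℝ) ^ (A.card + Fintype.card V +
              Nat.card (SimpleGraph.fromEdgeSet (A : Set (Sym2 V))).ConnectedComponent)) /
        (∑ A ∈ E.powerset,
            (-1 : ℝ) ^ (A.card + Fintype.card V +
              Nat.card (SimpleGraph.fromEdgeSet (A : Set (Sym2 V))).ConnectedComponent))) →
      s(p (m - 1), p m) ∈ G.edgeFinset ∧
        ε (G.edgeFinset.erase s(p (m - 1), p m)) < ε G.edgeFinset := by
  intro V _ _ G _ hconn m p hm hinj hadj hdeg hcard ε hε
  obtain ⟨m', rfl⟩ : ∃ m', m = m' + 1 := ⟨m - 1, by omega⟩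
  have hE : ∀ e, e ∈ G.edgeFinset ↔ e ∈ G.edgeSet := fun e => SimpleGraph.mem_edgeFinset
  have hdeg' : ∀ i, 0 < i → i < m' + 1 → ∀ w, G.Adj (p i) w → w = p (i - 1) ∨ w = p (i + 1) := by
    intro i hi him w hw
    have h1 : G.Adj (p i) (p (i + 1)) := hadj i him
    have h2 : G.Adj (p i) (p (i - 1)) := by
      have h3 := hadj (i - 1) (by omega)
      have h4 : i - 1 + 1 = i := by omega
      rw [h4] at h3
      exact h3.symm
    have hne : p (i - 1) ≠ p (i + 1) := fun hh => by
      have := hinj _ _ (by omega) (by omega) hh; omega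
    have hsub : ({p (i - 1), p (i + 1)} : Finset V) ⊆ G.neighborFinset (p i) := by
      intro x hx
      rw [SimpleGraph.mem_neighborFinset]
      rcases Finset.mem_insert.1 hx with rfl | hx
      · exact h2
      · rw [Finset.mem_singleton.1 hx]; exact h1
    have heq := Finset.eq_of_subset_of_card_le hsub (by
      rw [SimpleGraph.card_neighborFinset_eq_degree, hdeg i hi him, Finset.card_pair hne])
    have hw' : w ∈ G.neighborFinset (p i) := by
      rw [SimpleGraph.mem_neighborFinset]; exact hw
    rw [← heq] at hw'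
    rcases Finset.mem_insert.1 hw' with h | h
    · exact Or.inl h
    · exact Or.inr (Finset.mem_singleton.1 h)
  have hear := rest_ear G G.edgeFinset hE p (m' + 1) hinj hadj hdeg'
  have hXX := rest_XX G.edgeFinset p (m' + 1) (fun i hi => (hE _).2 (hadj i hi))
  have hm1 : m' + 1 - 1 = m' := by omega
  rw [hm1]
  refine ⟨(hE _).2 (hadj m' (by omega)), ?_⟩
  have hconn' : Pool.Agent.Helper580.Simon.kk (XX (rest G.edgeFinset p (m' + 1)) p (m' + 1)) = 1 := by
    rw [hXX]; exact kk_graph G _ hE hconn
  have hpos := rest_pos G G.edgeFinset hE p (m' + 1)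
  have hlt := ear_long_lt hear (by omega) hconn' hpos (by omega) (Fintype.card V : ℝ)
  have hnot := ear_notX hear hm m' (by omega)
  have hsucc := mem_XX_succ (rest G.edgeFinset p (m' + 1)) p m'
  have her : G.edgeFinset.erase s(p m', p (m' + 1)) =
      XX (rest G.edgeFinset p (m' + 1)) p m' := by
    ext x
    rw [Finset.mem_erase]
    rw [hXX] at hsucc
    constructor
    · rintro ⟨h1, h2⟩
      rcases (hsucc x).1 h2 with h3 | h3
      · exact absurd h3 h1
      · exact h3
    · intro h1
      refine ⟨fun h2 => hnot (h2 ▸ h1), (hsucc x).2 (Or.inr h1)⟩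
  rw [hXX] at hlt
  rw [hε, hε, eps_eq, eps_eq, her]
  exact hlt

end Pool.Agent.Results.MP_0933f2_co.LongEar
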