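import Mathlib
import Pool.Agent.Helper517.LMSimpG

set_option autoImplicit false

open Pool.Agent.Helper517.LM

namespace Pool.Agent.Results.MP_0933f2_co.SimplicialOrClosedEar

/-- Let `G` be a finite graph which either has a simplicial vertex (its neighbourhood is a clique) of
positive degree, or has an ear `p 0, ..., p m`, `m ≥ 2` (a path with inner vertices of degree two)
whose two ends are adjacent.  Then `G` has an edge whose deletion strictly lowers the mean size of a
broken-cycle-free spanning subgraph. -/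
theorem result :
  ∀ (V : Type) [Fintype V] [DecidableEq V] (G : SimpleGraph V) [DecidableRel G.Adj],
    ((∃ v : V, 0 < G.degree v ∧ ∀ a b, G.Adj v a → G.Adj v b → a ≠ b → G.Adj a b) ∨
      (∃ (m : ℕ) (p : ℕ → V), 2 ≤ m ∧
        (∀ i j, i ≤ m → j ≤ m → p i = p j → i = j) ∧
        (∀ i, i < m → G.Adj (p i) (p (i + 1))) ∧
        (∀ i, 0 < i → i < m → G.degree (p i) = 2) ∧
        G.Adj (p 0) (p m))) →
    ∀ ε : Finset (Sym2 V) → ℝ,
      (∀ E : Finset (Sym2 V), ε E =
        (∑ A ∈ E.powerset,
            ((Fintype.card V : ℝ) -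
              (Nat.card (SimpleGraph.fromEdgeSet (A : Set (Sym2 V))).ConnectedComponent : ℝ)) *
            (-1 : ℝ) ^ (A.card + Fintype.card V +
              Nat.card (SimpleGraph.fromEdgeSet (A : Set (Sym2 V))).ConnectedComponent)) /
        (∑ A ∈ E.powerset,
            (-1 : ℝ) ^ (A.card + Fintype.card V +
              Nat.card (SimpleGraph.fromEdgeSet (A : Set (Sym2 V))).ConnectedComponent))) →
      ∃ e ∈ G.edgeFinset, ε (G.edgeFinset.erase e) < ε G.edgeFinset := by
  intro V _ _ G _ hyp ε hε
  have hE : ∀ e, e ∈ G.edgeFinset ↔ e ∈ G.edgeSet := fun e => SimpleGraph.mem_edgeFinset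
  rcases hyp with ⟨v, hv, hcl⟩ | ⟨m, p, hm, hinj, hadj, hdeg, hc⟩
  · obtain ⟨w, hw⟩ := (G.degree_pos_iff_exists_adj v).1 hv
    refine ⟨s(v, w), (hE _).2 hw, ?_⟩
    rw [hε, hε, eps_eq, eps_eq]
    exact simp_core G _ hE v w hw hcl _ (fun e => Finset.mem_erase) _
  · obtain ⟨m', rfl⟩ : ∃ m', m = m' + 1 := ⟨m - 1, by omega⟩
    have hdeg' : ∀ i, 0 < i → i < m' + 1 → ∀ w, G.Adj (p i) w →
        w = p (i - 1) ∨ w = p (i + 1) := by
      intro i hi him w hw
      have h1 : G.Adj (p i) (p (i + 1)) := hadj i him
      have h2 : G.Adj (p i) (p (i - 1)) := by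
        have h3 := hadj (i - 1) (by omega)
        have h4 : i - 1 + 1 = i := by omega
        rw [h4] at h3
        exact h3.symm
      have hne : p (i - 1) ≠ p (i + 1) := fun hh => by
        have := hinj _ _ (by omega) (by omega) hh; omega
      have hsub : ({p (i - 1), p (i + 1)} : Finset V) ⊆ G.neighborFinset (p i) := by
        intro x hx
        rw [SimpleGraph.mem_neighborFinset]
        rcases Finset.mem_insert.1 hx with rfl | hx
        · exact h2
        · rw [Finset.mem_singleton.1 hx]; exact h1
      have heq := Finset.eq_of_subset_of_card_le hsub (by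
        rw [SimpleGraph.card_neighborFinset_eq_degree, hdeg i hi him, Finset.card_pair hne])
      have hw' : w ∈ G.neighborFinset (p i) := by
        rw [SimpleGraph.mem_neighborFinset]; exact hw
      rw [← heq] at hw'
      rcases Finset.mem_insert.1 hw' with h | h
      · exact Or.inl h
      · exact Or.inr (Finset.mem_singleton.1 h)
    refine ⟨s(p m', p (m' + 1)), (hE _).2 (hadj m' (by omega)), ?_⟩
    rw [hε, hε, eps_eq, eps_eq]
    exact ear_core G _ hE m' (by omega) p hinj hadj hdeg' hc _ (fun e => Finset.mem_erase) _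

end Pool.Agent.Results.MP_0933f2_co.SimplicialOrClosedEar
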