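import Pool.Agent.H673.Eps.Fin

set_option autoImplicit false

namespace Pool.Agent.Results.MP_0933f2_co.SimplicialVertex

open Finset

/-- The number of connected components of the spanning subgraph `(V, A)`. -/
noncomputable def comps {V : Type} (A : Finset (Sym2 V)) : ℕ :=
  Nat.card (SimpleGraph.fromEdgeSet (A : Set (Sym2 V))).ConnectedComponent

/-- The mean size of the broken-cycle-free subsets of the edge set `E` of a graph on `V`, computed
from Whitney's expansion of the chromatic polynomial over all subsets `A` of `E`. -/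
noncomputable def meanSize {V : Type} [Fintype V] (E : Finset (Sym2 V)) : ℝ :=
  (∑ A ∈ E.powerset, ((Fintype.card V : ℝ) - (comps A : ℝ)) *
      (-1 : ℝ) ^ (A.card + Fintype.card V + comps A)) /
    (∑ A ∈ E.powerset, (-1 : ℝ) ^ (A.card + Fintype.card V + comps A))

theorem result {V : Type} [Fintype V] [DecidableEq V] (G : SimpleGraph V) [DecidableRel G.Adj]
    (v w : V) (hvw : G.Adj v w)
    (hsimp : ∀ a b : V, G.Adj v a → G.Adj v b → a ≠ b → G.Adj a b) :
    meanSize (G.edgeFinset.erase s(v, w)) < meanSize G.edgeFinset ∧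
      meanSize G.edgeFinset - meanSize (G.edgeFinset.erase s(v, w)) =
        1 / ((G.degree v : ℝ) * ((G.degree v : ℝ) + 1)) := by
  classical
  have hinv : ∀ E : Finset (Sym2 V), meanSize E =
      Pool.Agent.H673.Eps.inv (Fintype.card V : ℝ) E := by
    intro E
    unfold meanSize Pool.Agent.H673.Eps.inv Pool.Agent.H673.Eps.S
    have h1 : ∑ A ∈ E.powerset, ((Fintype.card V : ℝ) - (comps A : ℝ)) *
        (-1 : ℝ) ^ (A.card + Fintype.card V + comps A) =
        (-1 : ℝ) ^ (Fintype.card V) * ∑ A ∈ E.powerset, (-1 : ℝ) ^ A.card *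
          (((Fintype.card V : ℝ) - (Pool.Agent.Helper580.Simon.kk A : ℝ)) *
            (-1 : ℝ) ^ Pool.Agent.Helper580.Simon.kk A) := by
      rw [Finset.mul_sum]
      refine Finset.sum_congr rfl fun A _ => ?_
      rw [show comps A = Pool.Agent.Helper580.Simon.kk A from rfl, pow_add, pow_add]
      ring
    have h2 : ∑ A ∈ E.powerset, (-1 : ℝ) ^ (A.card + Fintype.card V + comps A) =
        (-1 : ℝ) ^ (Fintype.card V) * ∑ A ∈ E.powerset, (-1 : ℝ) ^ A.card *
          (-1 : ℝ) ^ Pool.Agent.Helper580.Simon.kk A := by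
      rw [Finset.mul_sum]
      refine Finset.sum_congr rfl fun A _ => ?_
      rw [show comps A = Pool.Agent.Helper580.Simon.kk A from rfl, pow_add, pow_add]
      ring
    rw [h1, h2, mul_div_mul_left _ _ (pow_ne_zero _ (by norm_num))]
  have hdrop := Pool.Agent.H673.Eps.drop (Fintype.card V : ℝ) G G.edgeFinset
    (fun x => SimpleGraph.mem_edgeFinset) v w hvw hsimp (G.edgeFinset.erase s(v, w))
    (fun x => by rw [mem_erase]; exact and_comm) (G.degree v)
    (by
      rw [← SimpleGraph.card_neighborFinset_eq_degree]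
      congr 1
      ext u
      simp)
  rw [hinv, hinv]
  refine ⟨?_, hdrop⟩
  have hpos : 0 < G.degree v := by
    rw [← SimpleGraph.card_neighborFinset_eq_degree]
    exact card_pos.2 ⟨w, by simpa using hvw⟩
  have hpos' : (0 : ℝ) < G.degree v := by exact_mod_cast hpos
  have h3 : (0 : ℝ) < 1 / ((G.degree v : ℝ) * ((G.degree v : ℝ) + 1)) := by positivity
  linarith

end Pool.Agent.Results.MP_0933f2_co.SimplicialVertex
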